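import Pool.Agent.N295.WS.White

set_option autoImplicit false

/-!
# MP_7e6f74_co: complementary basis graphs of split matroids are connected
-/

namespace Pool.Agent.Results.MP_7e6f74_co.SplitMatroids

open Function

/-- The restriction of `M` to `A` is a uniform matroid. -/
def RestrictUniform {α : Type} (M : Matroid α) (A : Set α) : Prop :=
  ∀ X Y : Set α, (M.restrict A).IsBase X → Y ⊆ (M.restrict A).E →
    Y.ncard = X.ncard → (M.restrict A).IsBase Y

/-- The contraction of `A` in `M` is a uniform matroid. -/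
def ContractUniform {α : Type} (M : Matroid α) (A : Set α) : Prop :=
  ∀ X Y : Set α, (M.contract A).IsBase X → Y ⊆ (M.contract A).E →
    Y.ncard = X.ncard → (M.contract A).IsBase Y

/-- (Elementary) split matroids: every subset `S` of the ground set with as many elements as a
basis is a basis, or `|S ∩ A|` is larger than the rank of some stressed subset `A` (restriction to
`A` and contraction of `A` uniform); equivalently relaxing all stressed subsets gives a uniform
matroid. -/
def IsSplit {α : Type} (M : Matroid α) : Prop :=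
  ∀ B0 S : Set α, M.IsBase B0 → S ⊆ M.E → S.ncard = B0.ncard →
    (M.IsBase S ∨ ∃ A I : Set α, A ⊆ M.E ∧ RestrictUniform M A ∧ ContractUniform M A ∧
      M.IsBasis I A ∧ I.ncard < (S ∩ A).ncard)

/-- The set `F` is a disjoint union of `k` bases of `M`. -/
def DisjointUnionOfBases {α : Type} (M : Matroid α) (k : ℕ) (F : Set α) : Prop :=
  ∃ B : Fin k → Set α, (∀ i, M.IsBase (B i)) ∧ Pairwise (Disjoint on B) ∧ (⋃ i, B i) = F

/-- The complementary bases of `M`: bases whose complement is a disjoint union of `k - 1` bases. -/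
def ComplementaryBasis {α : Type} (M : Matroid α) (k : ℕ) : Type :=
  {X : Set α // M.IsBase X ∧ DisjointUnionOfBases M (k - 1) (M.E \ X)}

/-- The complementary basis graph: two complementary bases are adjacent when they differ in
exactly one pair of elements. -/
def complementaryBasisGraph {α : Type} (M : Matroid α) (k : ℕ) :
    SimpleGraph (ComplementaryBasis M k) :=
  SimpleGraph.fromRel (fun X Y => (X.1 \ Y.1).ncard = 1 ∧ (Y.1 \ X.1).ncard = 1)

/-- a set of a finite type as a finite set -/
noncomputable def toFin {α : Type} [Finite α] (X : Set α) : Finset α := (Set.toFinite X).toFinset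

theorem mem_toFin {α : Type} [Finite α] (X : Set α) (x : α) : x ∈ toFin X ↔ x ∈ X :=
  Set.Finite.mem_toFinset _

theorem coe_toFin {α : Type} [Finite α] (X : Set α) : (↑(toFin X) : Set α) = X :=
  Set.Finite.coe_toFinset _

section

variable {α : Type} [Fintype α] [DecidableEq α] (M : Matroid α)

/-- the tuple of finite sets is a partition of the ground set into bases -/
def Inv {k : ℕ} (T : Fin k → Finset α) : Prop :=
  (∀ i, M.IsBase (↑(T i) : Set α)) ∧ (∀ i j, i ≠ j → ∀ x, x ∈ T i → x ∉ T j) ∧
    ∀ x ∈ M.E, ∃ i, x ∈ T i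

/-- one symmetric exchange -/
def Step {k : ℕ} (T T' : Fin k → Finset α) : Prop :=
  ∃ (i j : Fin k) (a b : α), i ≠ j ∧
    a ∈ T i ∧ a ∉ T j ∧ b ∈ T j ∧ b ∉ T i ∧
    M.IsBase (↑(insert b ((T i).erase a)) : Set α) ∧
    M.IsBase (↑(insert a ((T j).erase b)) : Set α) ∧
    T' = Function.update (Function.update T i (insert b ((T i).erase a))) j
      (insert a ((T j).erase b))

theorem compl_of_inv {k : ℕ} {T : Fin (k + 1) → Finset α} (h : Inv M T) :
    M.IsBase (↑(T 0) : Set α) ∧ DisjointUnionOfBases M k (M.E \ (↑(T 0) : Set α)) := by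
  obtain ⟨h1, h2, h3⟩ := h
  refine ⟨h1 0, fun i => (↑(T i.succ) : Set α), fun i => h1 _, ?_, ?_⟩
  · intro i j hij
    change Disjoint (↑(T i.succ) : Set α) (↑(T j.succ) : Set α)
    rw [Set.disjoint_left]
    intro x hx hy
    exact h2 i.succ j.succ (fun h => hij (Fin.succ_injective _ h)) x hx hy
  · ext x
    simp only [Set.mem_iUnion, Set.mem_diff, Finset.mem_coe]
    constructor
    · rintro ⟨i, hi⟩
      exact ⟨(h1 _).subset_ground hi, fun h0 => h2 0 i.succ (Fin.succ_ne_zero i).symm x h0 hi⟩
    · rintro ⟨hx, hx0⟩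
      obtain ⟨i, hi⟩ := h3 x hx
      rcases Fin.eq_zero_or_eq_succ i with rfl | ⟨j, rfl⟩
      · exact absurd hi hx0
      · exact ⟨j, hi⟩

theorem step_inv {k : ℕ} {T T' : Fin k → Finset α} (h : Inv M T) (hs : Step M T T') :
    Inv M T' := by
  obtain ⟨h1, h2, h3⟩ := h
  obtain ⟨i, j, a, b, hij, hai, haj, hbj, hbi, hA, hB, rfl⟩ := hs
  have hab : a ≠ b := fun h => hbi (h ▸ hai)
  -- the new tuple
  have vi : Function.update (Function.update T i (insert b ((T i).erase a))) j
      (insert a ((T j).erase b)) i = insert b ((T i).erase a) := by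
    rw [Function.update_of_ne hij, Function.update_self]
  have vj : Function.update (Function.update T i (insert b ((T i).erase a))) j
      (insert a ((T j).erase b)) j = insert a ((T j).erase b) := Function.update_self ..
  have vl : ∀ l, l ≠ i → l ≠ j → Function.update (Function.update T i (insert b ((T i).erase a))) j
      (insert a ((T j).erase b)) l = T l := by
    intro l hli hlj
    rw [Function.update_of_ne hlj, Function.update_of_ne hli]
  set T' := Function.update (Function.update T i (insert b ((T i).erase a))) j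
      (insert a ((T j).erase b)) with hT'
  -- membership
  have mem : ∀ l x, x ∈ T' l ↔ (x ≠ a ∧ x ≠ b ∧ x ∈ T l) ∨ (x = b ∧ l = i) ∨ (x = a ∧ l = j) := by
    intro l x
    by_cases hli : l = i
    · subst hli
      rw [vi, Finset.mem_insert, Finset.mem_erase]
      constructor
      · rintro (h | ⟨h, h'⟩)
        · exact Or.inr (Or.inl ⟨h, rfl⟩)
        · exact Or.inl ⟨h, fun hb => hbi (hb ▸ h'), h'⟩
      · rintro (⟨h, -, h'⟩ | ⟨h, -⟩ | ⟨-, h⟩)
        · exact Or.inr ⟨h, h'⟩
        · exact Or.inl h
        · exact absurd h hij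
    · by_cases hlj : l = j
      · subst hlj
        rw [vj, Finset.mem_insert, Finset.mem_erase]
        constructor
        · rintro (h | ⟨h, h'⟩)
          · exact Or.inr (Or.inr ⟨h, rfl⟩)
          · exact Or.inl ⟨fun ha => haj (ha ▸ h'), h, h'⟩
        · rintro (⟨-, h, h'⟩ | ⟨-, h⟩ | ⟨h, -⟩)
          · exact Or.inr ⟨h, h'⟩
          · exact absurd h hli
          · exact Or.inl h
      · rw [vl l hli hlj]
        constructor
        · intro h
          refine Or.inl ⟨?_, ?_, h⟩
          · rintro rfl
            exact h2 i l (fun h => hli h.symm) _ hai h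
          · rintro rfl
            exact h2 j l (fun h => hlj h.symm) _ hbj h
        · rintro (⟨-, -, h⟩ | ⟨-, h⟩ | ⟨-, h⟩)
          · exact h
          · exact absurd h hli
          · exact absurd h hlj
  refine ⟨?_, ?_, ?_⟩
  · intro l
    by_cases hli : l = i
    · subst hli; rw [vi]; exact hA
    · by_cases hlj : l = j
      · subst hlj; rw [vj]; exact hB
      · rw [vl l hli hlj]; exact h1 l
  · intro l m hlm x hx hy
    rw [mem] at hx hy
    rcases hx with ⟨xa, xb, hx⟩ | ⟨xb, hl⟩ | ⟨xa, hl⟩
    · rcases hy with ⟨-, -, hy⟩ | ⟨yb, -⟩ | ⟨ya, -⟩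
      · exact h2 l m hlm x hx hy
      · exact xb yb
      · exact xa ya
    · rcases hy with ⟨-, yb, -⟩ | ⟨-, hm⟩ | ⟨ya, -⟩
      · exact yb xb
      · exact hlm (hl.trans hm.symm)
      · exact hab (ya.symm.trans xb)
    · rcases hy with ⟨ya, -, -⟩ | ⟨yb, -⟩ | ⟨-, hm⟩
      · exact ya xa
      · exact hab (xa.symm.trans yb)
      · exact hlm (hl.trans hm.symm)
  · intro x hx
    by_cases xa : x = a
    · exact ⟨j, (mem j x).2 (Or.inr (Or.inr ⟨xa, rfl⟩))⟩
    · by_cases xb : x = b
      · exact ⟨i, (mem i x).2 (Or.inr (Or.inl ⟨xb, rfl⟩))⟩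
      · obtain ⟨l, hl⟩ := h3 x hx
        exact ⟨l, (mem l x).2 (Or.inl ⟨xa, xb, hl⟩)⟩

theorem swap_ncard {S : Finset α} {a b : α} (ha : a ∈ S) (hb : b ∉ S) :
    ((↑S : Set α) \ (↑(insert b (S.erase a)) : Set α)).ncard = 1 ∧
      ((↑(insert b (S.erase a)) : Set α) \ (↑S : Set α)).ncard = 1 := by
  have hab : a ≠ b := fun h => hb (h ▸ ha)
  constructor
  · have : (↑S : Set α) \ (↑(insert b (S.erase a)) : Set α) = {a} := by
      ext x
      simp only [Finset.coe_insert, Finset.coe_erase, Set.mem_diff, Finset.mem_coe,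
        Set.mem_insert_iff, Set.mem_singleton_iff]
      constructor
      · rintro ⟨h1, h2⟩
        by_contra h3
        exact h2 (Or.inr ⟨h1, h3⟩)
      · rintro rfl
        exact ⟨ha, fun h => h.elim hab fun h => h.2 rfl⟩
    rw [this, Set.ncard_singleton]
  · have : (↑(insert b (S.erase a)) : Set α) \ (↑S : Set α) = {b} := by
      ext x
      simp only [Finset.coe_insert, Finset.coe_erase, Set.mem_diff, Finset.mem_coe,
        Set.mem_insert_iff, Set.mem_singleton_iff]
      constructor
      · rintro ⟨h1, h2⟩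
        rcases h1 with h1 | h1
        · exact h1
        · exact absurd h1.1 h2
      · rintro rfl
        exact ⟨Or.inl rfl, hb⟩
    rw [this, Set.ncard_singleton]

theorem step_zero {k : ℕ} {T T' : Fin (k + 1) → Finset α} (hs : Step M T T') :
    T' 0 = T 0 ∨ (((↑(T 0) : Set α) \ (↑(T' 0) : Set α)).ncard = 1 ∧
      ((↑(T' 0) : Set α) \ (↑(T 0) : Set α)).ncard = 1) := by
  obtain ⟨i, j, a, b, hij, hai, haj, hbj, hbi, hA, hB, rfl⟩ := hs
  by_cases h0 : (0 : Fin (k + 1)) = j
  · right
    subst h0
    rw [Function.update_self]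
    exact swap_ncard hbj haj
  · rw [Function.update_of_ne h0]
    by_cases h1 : (0 : Fin (k + 1)) = i
    · right
      subst h1
      rw [Function.update_self]
      exact swap_ncard hai hbi
    · left
      rw [Function.update_of_ne h1]

theorem sum_val {k : ℕ} {T T' : Fin k → Finset α} (h : Inv M T) (h' : Inv M T') :
    (Finset.univ.sum fun i => (T i).val) = Finset.univ.sum fun i => (T' i).val := by
  classical
  have key : ∀ {T : Fin k → Finset α}, Inv M T → ∀ x,
      (Finset.univ.sum fun i => (T i).val).count x = if x ∈ M.E then 1 else 0 := by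
    intro T hT x
    obtain ⟨h1, h2, h3⟩ := hT
    rw [Multiset.count_sum']
    have e : ∀ i, (T i).val.count x = if x ∈ T i then 1 else 0 := by
      intro i
      rw [Multiset.count_eq_of_nodup (T i).nodup]
      rfl
    simp only [e]
    by_cases hx : x ∈ M.E
    · rw [if_pos hx]
      obtain ⟨i, hi⟩ := h3 x hx
      rw [Finset.sum_eq_single i, if_pos hi]
      · intro l _ hl
        rw [if_neg]
        exact fun h => h2 l i hl x h hi
      · exact fun h => absurd (Finset.mem_univ i) h
    · rw [if_neg hx]
      refine Finset.sum_eq_zero fun i _ => ?_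
      rw [if_neg]
      exact fun h => hx ((h1 i).subset_ground h)
  ext x
  rw [key h, key h']

/-- the vertex of the complementary basis graph given by a tuple -/
def vert {k : ℕ} {T : Fin (k + 1) → Finset α} (h : Inv M T) : ComplementaryBasis M (k + 1) :=
  ⟨(↑(T 0) : Set α), compl_of_inv M h⟩

theorem reach {k : ℕ} {T T' : Fin (k + 1) → Finset α} (h : Inv M T)
    (hr : Relation.ReflTransGen (Step M) T T') :
    ∃ h' : Inv M T', (complementaryBasisGraph M (k + 1)).Reachable (vert M h) (vert M h') := by
  induction hr with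
  | refl => exact ⟨h, SimpleGraph.Reachable.refl _⟩
  | tail _ hs ih =>
    obtain ⟨h1, hR⟩ := ih
    refine ⟨step_inv M h1 hs, hR.trans ?_⟩
    rcases step_zero M hs with h0 | h0
    · have : vert M h1 = vert M (step_inv M h1 hs) := by
        apply Subtype.ext
        change (↑(_ : Finset α) : Set α) = ↑(_ : Finset α)
        rw [h0]
      rw [this]
    · apply SimpleGraph.Adj.reachable
      rw [complementaryBasisGraph, SimpleGraph.fromRel_adj]
      refine ⟨?_, Or.inl h0⟩
      intro heq
      have h2 := congrArg Subtype.val heq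
      have h3 : ((vert M h1).1 \ (vert M (step_inv M h1 hs)).1).ncard = 1 := h0.1
      rw [h2, Set.diff_self, Set.ncard_empty] at h3
      exact absurd h3 (by norm_num)

end

/-- For every (elementary) split matroid `M` on a finite set which is a disjoint union of `k ≥ 1`
bases, the complementary basis graph of `M` is connected. -/
theorem result : ∀ (α : Type) [Finite α] (M : Matroid α), IsSplit M → ∀ k : ℕ, 1 ≤ k →
    DisjointUnionOfBases M k M.E → (complementaryBasisGraph M k).Connected := by
  classical
  intro α _ M hM k hk hE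
  have := Fintype.ofFinite α
  obtain ⟨k, rfl⟩ : ∃ k', k = k' + 1 := ⟨k - 1, by omega⟩
  -- every complementary basis comes from a tuple
  have hv : ∀ X : ComplementaryBasis M (k + 1), ∃ (T : Fin (k + 1) → Finset α) (h : Inv M T),
      vert M h = X := by
    rintro ⟨X, hX, C, hC1, hC2, hC3⟩
    have hC2' : ∀ i j : Fin k, i ≠ j → Disjoint (C i) (C j) := fun i j hij => hC2 hij
    refine ⟨Fin.cons (toFin X) (fun i => toFin (C i)), ?_, ?_⟩
    · refine ⟨?_, ?_, ?_⟩
      · intro i
        rcases Fin.eq_zero_or_eq_succ i with rfl | ⟨j, rfl⟩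
        · rw [Fin.cons_zero, coe_toFin]; exact hX
        · rw [Fin.cons_succ, coe_toFin]; exact hC1 j
      · intro i j hij x hx hy
        rcases Fin.eq_zero_or_eq_succ i with rfl | ⟨i, rfl⟩
        · rcases Fin.eq_zero_or_eq_succ j with rfl | ⟨j, rfl⟩
          · exact hij rfl
          · rw [Fin.cons_zero, mem_toFin] at hx
            rw [Fin.cons_succ, mem_toFin] at hy
            have h3 : x ∈ M.E \ X := by rw [← hC3]; exact Set.mem_iUnion.2 ⟨j, hy⟩
            exact h3.2 hx
        · rcases Fin.eq_zero_or_eq_succ j with rfl | ⟨j, rfl⟩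
          · rw [Fin.cons_zero, mem_toFin] at hy
            rw [Fin.cons_succ, mem_toFin] at hx
            have h3 : x ∈ M.E \ X := by rw [← hC3]; exact Set.mem_iUnion.2 ⟨i, hx⟩
            exact h3.2 hy
          · rw [Fin.cons_succ, mem_toFin] at hx
            rw [Fin.cons_succ, mem_toFin] at hy
            exact Set.disjoint_left.1 (hC2' i j fun h => hij (h ▸ rfl)) hx hy
      · intro x hx
        by_cases hxX : x ∈ X
        · exact ⟨0, by rw [Fin.cons_zero, mem_toFin]; exact hxX⟩
        · have h3 : x ∈ ⋃ i, C i := by rw [hC3]; exact ⟨hx, hxX⟩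
          obtain ⟨j, hj⟩ := Set.mem_iUnion.1 h3
          exact ⟨j.succ, by rw [Fin.cons_succ, mem_toFin]; exact hj⟩
    · apply Subtype.ext
      change (↑((Fin.cons (toFin X) (fun i => toFin (C i)) : Fin (k + 1) → Finset α) 0) :
        Set α) = X
      rw [Fin.cons_zero, coe_toFin]
  -- there is a complementary basis
  have hne : Nonempty (ComplementaryBasis M (k + 1)) := by
    obtain ⟨B, hB1, hB2, hB3⟩ := hE
    have hB2' : ∀ i j : Fin (k + 1), i ≠ j → Disjoint (B i) (B j) := fun i j hij => hB2 hij
    refine ⟨⟨B 0, hB1 0, fun i => B i.succ, fun i => hB1 _, ?_, ?_⟩⟩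
    · intro i j hij
      exact hB2' _ _ fun h => hij (Fin.succ_injective _ h)
    · ext x
      rw [Set.mem_iUnion]
      constructor
      · rintro ⟨i, hi⟩
        refine ⟨(hB1 _).subset_ground hi, fun h0 => ?_⟩
        exact Set.disjoint_left.1 (hB2' 0 i.succ (Fin.succ_ne_zero i).symm) h0 hi
      · rintro ⟨hx, hx0⟩
        rw [← hB3] at hx
        obtain ⟨i, hi⟩ := Set.mem_iUnion.1 hx
        rcases Fin.eq_zero_or_eq_succ i with rfl | ⟨j, rfl⟩
        · exact absurd hi hx0
        · exact ⟨j, hi⟩
  have := hne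
  refine SimpleGraph.Connected.mk ?_
  intro X Y
  obtain ⟨T, hT, rfl⟩ := hv X
  obtain ⟨T', hT', rfl⟩ := hv Y
  have hr := Pool.Agent.N295.WS.white_split α M (fun B0 S h1 h2 h3 => hM B0 S h1 h2 h3) (k + 1) T T'
    hT.1 hT'.1 (sum_val M hT hT')
  obtain ⟨h', hR⟩ := reach M hT hr
  exact hR

end Pool.Agent.Results.MP_7e6f74_co.SplitMatroids
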